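import Mathlib
import Pool.Agent.W14.US.Stm

set_option autoImplicit false

open Complex MeasureTheory
open scoped ContDiff ComplexConjugate

namespace Pool.Agent.W491.US

open Pool.Agent.W14.US

theorem fderiv_formula (F : ℂ → ℂ) (z v : ℂ) :
    fderiv ℝ F z v = dd F z * v + db F z * conj v := by
  have h1 : v = v.re • (1 : ℂ) + v.im • I := by
    apply Complex.ext <;> simp
  have h2 : fderiv ℝ F z v = v.re • fderiv ℝ F z 1 + v.im • fderiv ℝ F z I := by
    conv_lhs => rw [h1]
    rw [map_add, map_smul, map_smul]
  have h3 : v = (v.re : ℂ) + v.im * I := (Complex.re_add_im v).symm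
  have h4 : conj v = (v.re : ℂ) - v.im * I := by
    apply Complex.ext <;> simp
  rw [h2, h4]
  unfold dd db
  set a := fderiv ℝ F z 1
  set b := fderiv ℝ F z I
  rw [Complex.real_smul, Complex.real_smul]
  conv_rhs => rw [h3]
  simp only [Complex.add_re, Complex.ofReal_re, Complex.mul_re, Complex.ofReal_im, Complex.I_re,
    Complex.I_im, Complex.add_im, Complex.mul_im, mul_zero, zero_mul, sub_zero, add_zero,
    zero_add, mul_one]
  linear_combination ((v.im : ℂ) * b) * Complex.I_sq

theorem cr : S_CR := by
  intro F hF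
  refine ⟨?_, ?_⟩
  · intro z
    refine ContinuousLinearMap.opNorm_le_bound _ (by positivity) ?_
    intro v
    rw [fderiv_formula]
    calc ‖dd F z * v + db F z * conj v‖ ≤ ‖dd F z * v‖ + ‖db F z * conj v‖ := norm_add_le _ _
      _ = (‖dd F z‖ + ‖db F z‖) * ‖v‖ := by
          rw [norm_mul, norm_mul, Complex.norm_conj]; ring
  · intro z hz
    have h := (hF z).hasFDerivAt
    have h2 : HasFDerivAt F (ContinuousLinearMap.smulRight (1 : ℂ →L[ℂ] ℂ) (dd F z)) z := by
      refine hasFDerivAt_of_restrictScalars ℝ (hF z).hasFDerivAt ?_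
      ext v
      simp only [ContinuousLinearMap.coe_restrictScalars', ContinuousLinearMap.smulRight_apply,
        ContinuousLinearMap.one_apply, smul_eq_mul]
      rw [fderiv_formula, hz]
      ring
    exact h2.differentiableAt

end Pool.Agent.W491.US
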